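import Pool.Agent.Y119.HY.Main

/-!
# Irreducible systems with a transvection: density in the symplectic group
-/

set_option autoImplicit false

open Matrix Polynomial

namespace Pool.Agent.Y119.PL

open Pool.Agent.Y119.HY

variable {n : ℕ} {J : Matrix (Fin n) (Fin n) ℂ}

section main

variable {ι : Type*} {N : ι → Matrix (Fin n) (Fin n) ℂ} (hJ : J.transpose = -J) (hdet : J.det ≠ 0)
  (hN : ∀ i, N i ^ n = 0) (hNJ : ∀ i, (N i).transpose * J + J * N i = 0) {u : Fin n → ℂ} (hu0 : u ≠ 0)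
  (S : Submonoid (Matrix (Fin n) (Fin n) ℂ)) (hE : ∀ i, ∀ c : ℂ, E (N i) c ∈ S) (huS : ∀ s, tv J u s ∈ S)
  (hcl : ∀ M : Matrix (Fin n) (Fin n) (Polynomial ℂ), (∀ c : ℂ, c ≠ 0 → M.map (Polynomial.eval c) ∈ S) →
    M.map (Polynomial.eval 0) ∈ S)
  (hirr : ∀ W : Submodule ℂ (Fin n → ℂ), (∀ i, ∀ x ∈ W, N i *ᵥ x ∈ W) → W = ⊥ ∨ W = ⊤)

include hdet in
lemma om_nondeg {u : Fin n → ℂ} (h : ∀ w, om J u w = 0) : u = 0 := by
  have h1 : ∀ w : Fin n → ℂ, u ⬝ᵥ w = 0 := by
    intro w
    have h2 := h (J⁻¹ *ᵥ w)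
    unfold om at h2
    rw [mulVec_mulVec, mul_nonsing_inv _ (Ne.isUnit hdet), one_mulVec] at h2
    exact h2
  funext i
  have := h1 (Pi.single i 1)
  rwa [dotProduct_single_one] at this

include hE in
lemma hE' (i : ι) (c : ℂ) (g : Matrix (Fin n) (Fin n) ℂ) (hg : g ∈ S) : E (N i) c * g * E (N i) (-c) ∈ S :=
  mul_mem (mul_mem (hE i c) hg) (hE i (-c))

include hN hNJ hE in
lemma conj_mem2 {w : Fin n → ℂ} (hw : ∀ s, tv J w s ∈ S) (i : ι) (c s : ℂ) : tv J (E (N i) c *ᵥ w) s ∈ S :=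
  conj_mem (hN i) (hNJ i) S (hE' S hE i) hw c s

include hJ hcl in
lemma ext_sub {U : Submodule ℂ (Fin n → ℂ)} (hU : ∀ x ∈ U, ∀ s, tv J x s ∈ S) {w y0 : Fin n → ℂ}
    (hw : ∀ s, tv J w s ∈ S) (hy0 : y0 ∈ U) (h0 : om J w y0 ≠ 0) :
    ∀ x ∈ U ⊔ Submodule.span ℂ {w}, ∀ s, tv J x s ∈ S := by
  intro x hx
  obtain ⟨y, hy, z, hz, rfl⟩ := Submodule.mem_sup.1 hx
  obtain ⟨a, rfl⟩ := Submodule.mem_span_singleton.1 hz
  by_cases h1 : om J w y = 0
  · refine closed_mem S hcl (w := y0) fun η hη s => ?_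
    have h2 : om J w (y + η • y0) ≠ 0 := by
      rw [om_add, om_smul, h1, zero_add]
      exact mul_ne_zero hη h0
    have h3 := add_mem' hJ S hw (hU _ (U.add_mem hy (U.smul_mem η hy0))) h2 a s
    have e : y + a • w + η • y0 = y + η • y0 + a • w := by abel
    rw [e]
    exact h3
  · exact add_mem' hJ S hw (hU y hy) h1 a

/-- a functional which vanishes on the orbit vanishes at the derivative -/
lemma deriv_ker (hn : 2 ≤ n) {M : Matrix (Fin n) (Fin n) ℂ} {v : Fin n → ℂ} {l : (Fin n → ℂ) →ₗ[ℂ] ℂ}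
    (h : pl M v l = 0) : l (M *ᵥ v) = 0 := by
  have h1 := pl_coeff (N := M) v l ⟨1, by omega⟩
  rw [h, Polynomial.coeff_zero] at h1
  simpa using h1.symm

include hJ hdet hN hNJ hu0 hE huS hcl hirr in
lemma all_tv2 (hn : 2 ≤ n) (x : Fin n → ℂ) (s : ℂ) : tv J x s ∈ S := by
  classical
  set P : Set (Fin n → ℂ) := {x | ∀ s, tv J x s ∈ S} with hP
  have huP : u ∈ P := huS
  have hPE : ∀ y ∈ P, ∀ i c, E (N i) c *ᵥ y ∈ P := fun y hy i c s => conj_mem2 hN hNJ S hE hy i c s
  -- the span of all directions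
  have hst : ∀ i, ∀ y ∈ Submodule.span ℂ P, N i *ᵥ y ∈ Submodule.span ℂ P := by
    intro i y hy
    induction hy using Submodule.span_induction with
    | mem y hy =>
      by_contra hcon
      obtain ⟨l, hl1, hl2⟩ := Submodule.exists_le_ker_of_notMem hcon
      apply hl1
      refine deriv_ker hn (Polynomial.funext fun c => ?_)
      rw [pl_eval, Polynomial.eval_zero]
      exact LinearMap.mem_ker.1 (hl2 (Submodule.subset_span (hPE y hy i c)))
    | zero => rw [mulVec_zero]; exact zero_mem _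
    | add y z _ _ h1 h2 => rw [mulVec_add]; exact add_mem h1 h2
    | smul a y _ h1 => rw [mulVec_smul]; exact Submodule.smul_mem _ a h1
  have hspan : Submodule.span ℂ P = ⊤ := by
    rcases hirr (Submodule.span ℂ P) hst with h | h
    · exfalso
      apply hu0
      have : u ∈ Submodule.span ℂ P := Submodule.subset_span huP
      rw [h] at this
      exact (Submodule.mem_bot ℂ).1 this
    · exact h
  -- a second direction
  obtain ⟨w, hwP, huw⟩ : ∃ w ∈ P, om J u w ≠ 0 := by
    by_contra hcon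
    push Not at hcon
    apply hu0
    refine om_nondeg hdet fun w => ?_
    have hw : w ∈ Submodule.span ℂ P := by rw [hspan]; trivial
    induction hw using Submodule.span_induction with
    | mem y hy => exact hcon y hy
    | zero => unfold om; rw [mulVec_zero, dotProduct_zero]
    | add y z _ _ h1 h2 => rw [om_add, h1, h2, add_zero]
    | smul a y _ h1 => rw [om_smul, h1, mul_zero]
  have hwu : om J w u ≠ 0 := by rw [om_skew hJ]; exact neg_ne_zero.2 huw
  -- a maximal subspace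
  set 𝒰 : Set (Submodule ℂ (Fin n → ℂ)) := {U | u ∈ U ∧ w ∈ U ∧ ∀ x ∈ U, ∀ s, tv J x s ∈ S} with h𝒰
  have hne : 𝒰.Nonempty := by
    refine ⟨Submodule.span ℂ {u} ⊔ Submodule.span ℂ {w}, Submodule.mem_sup_left (Submodule.mem_span_singleton_self u),
      Submodule.mem_sup_right (Submodule.mem_span_singleton_self w), ?_⟩
    refine ext_sub hJ S hcl (fun x hx s => ?_) hwP (Submodule.mem_span_singleton_self u) hwu
    obtain ⟨c, rfl⟩ := Submodule.mem_span_singleton.1 hx
    rw [tv_smul]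
    exact huS _
  obtain ⟨U, ⟨huU, hwU, hU⟩, hmax⟩ := set_has_maximal_iff_noetherian.2 (inferInstance : IsNoetherian ℂ (Fin n → ℂ)) 𝒰 hne
  have hdich : ∀ y ∈ P, y ∈ U ∨ ∀ z ∈ U, om J y z = 0 := by
    intro y hy
    by_contra hcon
    push Not at hcon
    obtain ⟨hyU, z, hz, hyz⟩ := hcon
    refine hmax (U ⊔ Submodule.span ℂ {y}) ⟨Submodule.mem_sup_left huU, Submodule.mem_sup_left hwU,
      ext_sub hJ S hcl hU hy hz hyz⟩ (lt_of_le_of_ne le_sup_left fun h => hyU ?_)
    rw [h]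
    exact Submodule.mem_sup_right (Submodule.mem_span_singleton_self y)
  have hstab1 : ∀ i, ∀ y ∈ U, (∃ z ∈ U, om J z y ≠ 0) → N i *ᵥ y ∈ U := by
    rintro i y hy ⟨z, hz, hzy⟩
    by_contra hcon
    obtain ⟨l, hl1, hl2⟩ := Submodule.exists_le_ker_of_notMem hcon
    set l2 : (Fin n → ℂ) →ₗ[ℂ] ℂ :=
      { toFun := fun x => om J z x, map_add' := om_add z, map_smul' := fun c x => om_smul c z x } with hl2d
    have hprod : pl (N i) y l * pl (N i) y l2 = 0 := by
      refine Polynomial.funext fun c => ?_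
      rw [Polynomial.eval_mul, pl_eval, pl_eval, Polynomial.eval_zero]
      rcases hdich _ (hPE y (hU y hy) i c) with h | h
      · rw [LinearMap.mem_ker.1 (hl2 h), zero_mul]
      · have h1 : l2 (E (N i) c *ᵥ y) = om J z (E (N i) c *ᵥ y) := rfl
        rw [h1, om_skew hJ, h z hz, neg_zero, mul_zero]
    rcases mul_eq_zero.1 hprod with h | h
    · exact hl1 (deriv_ker hn h)
    · apply hzy
      have h1 := pl_eval (N := N i) y l2 0
      rw [h, Polynomial.eval_zero, E_zero (hN i), one_mulVec] at h1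
      exact h1.symm
  have hstab : ∀ i, ∀ y ∈ U, N i *ᵥ y ∈ U := by
    intro i y hy
    by_cases h : ∃ z ∈ U, om J z y ≠ 0
    · exact hstab1 i y hy h
    · push Not at h
      have h1 : N i *ᵥ (y + u) ∈ U := by
        refine hstab1 i _ (U.add_mem hy huU) ⟨w, hwU, ?_⟩
        rw [om_add, h w hwU, zero_add]
        exact hwu
      have h2 : N i *ᵥ u ∈ U := hstab1 i u huU ⟨w, hwU, hwu⟩
      have h3 : N i *ᵥ y = N i *ᵥ (y + u) - N i *ᵥ u := by rw [mulVec_add]; abel
      rw [h3]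
      exact U.sub_mem h1 h2
  rcases hirr U hstab with h | h
  · exfalso
    rw [h] at huU
    exact hu0 ((Submodule.mem_bot ℂ).1 huU)
  · exact hU x (by rw [h]; trivial) s

/-- the symplectic group is generated by the transvections -/
theorem sp_of_tv (hJ : J.transpose = -J) (hdet : J.det ≠ 0) (S : Submonoid (Matrix (Fin n) (Fin n) ℂ))
    (h : ∀ x s, tv J x s ∈ S) (g : Matrix (Fin n) (Fin n) ℂ) (hg : g.transpose * J * g = J) : g ∈ S := by
  set ω : (Fin n → ℂ) →ₗ[ℂ] (Fin n → ℂ) →ₗ[ℂ] ℂ := Matrix.toLinearMap₂' ℂ J with hω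
  have hωa : ∀ u v, ω u v = om J u v := by
    intro u v
    rw [hω, Matrix.toLinearMap₂'_apply']
    rfl
  have h0 : ∀ v, ω v v = 0 := fun v => by rw [hωa, om_self hJ]
  have hnd : ∀ u, (∀ v, ω u v = 0) → u = 0 := fun u hu => om_nondeg hdet fun w => by rw [← hωa]; exact hu w
  have hpres : ∀ u v, ω (Matrix.toLin' g u) (Matrix.toLin' g v) = ω u v := by
    intro u v
    rw [hωa, hωa, toLin'_apply, toLin'_apply]
    unfold om
    rw [mulVec_mulVec, ← vecMul_transpose, ← dotProduct_mulVec, mulVec_mulVec, ← Matrix.mul_assoc, hg]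
  have hmem := Pool.Agent.W948.ZC.TR.aux ℂ _ (Fin n → ℂ) ω rfl h0 hnd (Matrix.toLin' g) hpres
  have key : ∀ T ∈ Pool.Agent.W948.ZC.TR.G ω, LinearMap.toMatrix' T ∈ S := by
    intro T hT
    unfold Pool.Agent.W948.ZC.TR.G at hT
    induction hT using Submonoid.closure_induction with
    | mem T h' =>
      obtain ⟨c, u, rfl⟩ := h'
      have h1 : LinearMap.toMatrix' (1 + c • (ω u).smulRight u) = tv J u c := by
        apply (Matrix.toLin'.injective)
        rw [toLin'_toMatrix']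
        ext x i
        have h2 : (Matrix.toLin' (tv J u c)) (Pi.single x 1) = tv J u c *ᵥ (Pi.single x 1) := rfl
        rw [LinearMap.comp_apply, LinearMap.comp_apply, LinearMap.single_apply, h2, tv_mulVec, ← hωa]
        simp [LinearMap.add_apply, mul_assoc]
      rw [h1]
      exact h _ c
    | one =>
      have : LinearMap.toMatrix' (1 : Module.End ℂ (Fin n → ℂ)) = 1 := LinearMap.toMatrix'_id
      rw [this]
      exact one_mem _
    | mul A B _ _ hA hB =>
      have : LinearMap.toMatrix' (A * B) = LinearMap.toMatrix' A * LinearMap.toMatrix' B :=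
        LinearMap.toMatrix'_mul A B
      rw [this]
      exact mul_mem hA hB
  have := key _ hmem
  rwa [LinearMap.toMatrix'_toLin'] at this

include hJ hdet hN hNJ hu0 hE huS hcl hirr in
/-- **Density.** -/
theorem sp_all2 (hn : 2 ≤ n) (g : Matrix (Fin n) (Fin n) ℂ) (hg : g.transpose * J * g = J) : g ∈ S :=
  sp_of_tv hJ hdet S (fun x s => all_tv2 hJ hdet hN hNJ hu0 S hE huS hcl hirr hn x s) g hg

end main

/-- the dimension is at least two -/
lemma two_le (hJ : J.transpose = -J) (hdet : J.det ≠ 0) {u : Fin n → ℂ} (hu0 : u ≠ 0) : 2 ≤ n := by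
  by_contra hcon
  have h1 : n = 0 ∨ n = 1 := by omega
  rcases h1 with rfl | rfl
  · exact hu0 (Subsingleton.elim _ _)
  · apply hdet
    rw [det_fin_one]
    have h2 := congrFun (congrFun hJ 0) 0
    rw [transpose_apply, neg_apply] at h2
    have h3 : (2 : ℂ) * J 0 0 = 0 := by linear_combination h2
    exact (mul_eq_zero.1 h3).resolve_left two_ne_zero

/-- the one-parameter group of a matrix of Picard-Lefschetz type -/
lemma E_smul_tv (hn : 2 ≤ n) (hJ : J.transpose = -J) {M : Matrix (Fin n) (Fin n) ℂ} {u : Fin n → ℂ} {c : ℂ}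
    (hM : ∀ x, M *ᵥ x = (c * om J u x) • u) (s : ℂ) : E M s = tv J u (s * c) := by
  have h1 : M = c • vecMulVec u (u ᵥ* J) := by
    apply Matrix.toLin'.injective
    refine LinearMap.ext fun x => ?_
    rw [toLin'_apply, toLin'_apply, hM, smul_mulVec, vecMulVec_mulVec, ← om_eq]
    simp [smul_smul]
  rw [← E_tv hn hJ u (s * c)]
  unfold E
  refine Finset.sum_congr rfl fun i _ => ?_
  rw [h1, _root_.smul_pow, smul_smul]
  congr 1
  rw [mul_pow]
  ring

end Pool.Agent.Y119.PL
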