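import Pool.Agent.Y119.PL.Tup

/-!
# The main theorem on families of Picard-Lefschetz type
-/

set_option autoImplicit false

open Filter Topology Matrix

namespace Pool.Agent.Y119.PL

open Pool.Agent.Y119.HY Pool.Agent.Y890.SP

variable {n : ℕ} {r : Fin (n + 1) → ℕ}

lemma excP_sub {J J' : ∀ j, Matrix (Fin (r j)) (Fin (r j)) ℂ} {U : Fin (n + 1) → Set ℂ}
    {Y : ∀ j, ℂ → Matrix (Fin (r j)) (Fin (r j)) ℂ} (hdet : ∀ j, (J j).det ≠ 0)
    (hsym : ∀ j, ∀ z ∈ U j, (Y j z).transpose * J' j * Y j z = J j)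
    (hsp : ∀ j, ∀ g : Matrix (Fin (r j)) (Fin (r j)) ℂ, g.transpose * J j * g = J j → g ∈ GalU (U j) (Y j))
    {K : Type} [Field K] [NumberField K] (io : K →+* ℂ) {k : ℕ} (hk : 0 < k) (ξ : Fin k → ℂ) {T : ℝ} (hT : 0 < T) :
    ExcP J J' U Y K io k ξ T ⊆ Exc k U (ff Y) (fun j => Core (U j) k) K io ξ k T := by
  classical
  rintro s ⟨hs, P, hdeg, hcoef, hzero, X, hX, hne⟩
  choose c hc hc' using hcoef
  set good : (Fin (n + 1) → Sg r → Fin (k + 1)) → Prop := fun l => ∀ j y, y.1 ≠ j → l j y = 0 with hgood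
  set mo : (Fin (n + 1) → Sg r → Fin (k + 1)) → (Sg r →₀ ℕ) := fun l =>
    Finsupp.equivFunOnFinite.symm fun y => (l y.1 y : ℕ) with hmo
  refine ⟨hs, fun l i => if good l then c (mo l) i else 0, fun l i φ => ?_, ?_, ?_⟩
  · show ‖φ (((if good l then c (mo l) i else 0 : NumberField.RingOfIntegers K)) : K)‖ ≤ T ^ (k : ℝ)
    split_ifs with h
    · exact hc _ i φ
    · have h0 : (((0 : NumberField.RingOfIntegers K)) : K) = 0 := rfl
      rw [h0, map_zero, norm_zero]
      positivity
  · have h1 := sum_exp hdeg (fun l => ∑ i, ξ i * io (((if good l then c (mo l) i else 0 :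
        NumberField.RingOfIntegers K)) : K)) (fun l => by
      show _ = if good l then P.coeff (mo l) else 0
      split_ifs with h
      · rw [hc']
      · simp) (pnt fun j => Y j (io (s j)))
    rw [hzero] at h1
    rw [← h1]
    refine Finset.sum_congr rfl fun l _ => ?_
    congr 1
    refine Finset.prod_congr rfl fun j _ => Finset.prod_congr rfl fun y _ => ?_
    congr 1
    unfold ff pnt
    by_cases hy : y.1 = j
    · subst hy
      rw [if_pos rfl]
    · rw [if_neg hy, if_neg hy]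
  · rintro ⟨G, hG1, hG2⟩
    apply hne
    -- the relation as a polynomial
    set A : MvPolynomial (Sg r) (MvPolynomial (Fin (n + 1)) ℂ) :=
      ∑ l : Fin (n + 1) → Sg r → Fin (k + 1), MvPolynomial.C (∑ i, MvPolynomial.C (ξ i) *
        MvPolynomial.map (algebraMap Qbar ℂ) (G l i)) *
        ∏ j, ∏ y, (if y.1 = j then MvPolynomial.X y else 0) ^ (l j y : ℕ) with hA
    have hAe : ∀ x Z, vA A x Z = ∑ l, (∑ i, ξ i * MvPolynomial.aeval x (G l i)) *
        ∏ j, ∏ y, (if y.1 = j then pnt Z y else 0) ^ (l j y : ℕ) := by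
      intro x Z
      rw [hA]
      unfold vA
      rw [MvPolynomial.eval₂_sum]
      refine Finset.sum_congr rfl fun l _ => ?_
      rw [MvPolynomial.eval₂_mul, MvPolynomial.eval₂_C, MvPolynomial.eval₂_prod]
      congr 1
      · rw [map_sum]
        refine Finset.sum_congr rfl fun i _ => ?_
        rw [map_mul, MvPolynomial.eval_C, MvPolynomial.eval_map, MvPolynomial.aeval_def]
      · refine Finset.prod_congr rfl fun j _ => ?_
        rw [MvPolynomial.eval₂_prod]
        refine Finset.prod_congr rfl fun y _ => ?_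
        rw [MvPolynomial.eval₂_pow]
        congr 1
        split_ifs
        · rw [MvPolynomial.eval₂_X]
        · rw [MvPolynomial.eval₂_zero]
    have hsU : ∀ j, io (s j) ∈ U j := fun j => core_sub _ hk (hs j).2
    -- the group elements
    set g : ∀ j, Matrix (Fin (r j)) (Fin (r j)) ℂ := fun j => (Y j (io (s j)))⁻¹ * X j with hg
    have hYY : ∀ j, Y j (io (s j)) * (Y j (io (s j)))⁻¹ = 1 := by
      intro j
      refine mul_nonsing_inv _ (Ne.isUnit fun h => hdet j ?_)
      rw [← hsym j _ (hsU j), det_mul, h, mul_zero]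
    have hgJ : ∀ j, (g j).transpose * J j * g j = J j := by
      intro j
      have h3 : ((Y j (io (s j)))⁻¹).transpose * J j * (Y j (io (s j)))⁻¹ = J' j := by
        rw [← hsym j _ (hsU j)]
        calc ((Y j (io (s j)))⁻¹).transpose * ((Y j (io (s j))).transpose * J' j * Y j (io (s j))) * (Y j (io (s j)))⁻¹ =
              (Y j (io (s j)) * (Y j (io (s j)))⁻¹).transpose * J' j * (Y j (io (s j)) * (Y j (io (s j)))⁻¹) := by
                rw [transpose_mul]; simp only [Matrix.mul_assoc]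
          _ = J' j := by rw [hYY, transpose_one, one_mul, mul_one]
      calc (g j).transpose * J j * g j =
            (X j).transpose * (((Y j (io (s j)))⁻¹).transpose * J j * (Y j (io (s j)))⁻¹) * X j := by
              rw [hg]; simp only [transpose_mul, Matrix.mul_assoc]
        _ = J j := by rw [h3]; exact hX j
    have h1 := multi (U := U) (Y := Y) (A := A) (fun x hx => by
      rw [hAe]
      refine Eq.trans ?_ (hG2 x hx)
      refine Finset.sum_congr rfl fun l _ => ?_
      congr 1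
      refine Finset.prod_congr rfl fun j _ => Finset.prod_congr rfl fun y _ => ?_
      congr 1
      unfold ff pnt
      by_cases hy : y.1 = j
      · subst hy
        rw [if_pos rfl]
      · rw [if_neg hy, if_neg hy]) (fun j => hsp j _ (hgJ j)) (fun j => io (s j)) hsU
    have h2 : (fun j => Y j (io (s j)) * g j) = X := by
      funext j
      rw [hg]
      simp only [← Matrix.mul_assoc, hYY, one_mul]
    rw [h2, hAe] at h1
    have h3 := sum_exp hdeg (fun l => ∑ i, ξ i * io (((if good l then c (mo l) i else 0 :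
        NumberField.RingOfIntegers K)) : K)) (fun l => by
      show _ = if good l then P.coeff (mo l) else 0
      split_ifs with h
      · rw [hc']
      · simp) (pnt X)
    refine h3.symm.trans (Eq.trans ?_ h1)
    refine Finset.sum_congr rfl fun l _ => ?_
    congr 1
    refine Finset.sum_congr rfl fun i _ => ?_
    rw [hG1]

/-- **The main theorem.** -/
theorem exc_main {J J' : ∀ j, Matrix (Fin (r j)) (Fin (r j)) ℂ} {U : Fin (n + 1) → Set ℂ}
    {Y : ∀ j, ℂ → Matrix (Fin (r j)) (Fin (r j)) ℂ} (hJ : ∀ j, (J j).transpose = -J j) (hdet : ∀ j, (J j).det ≠ 0)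
    (hU : ∀ j, IsPreconnected (U j)) (hUo : ∀ j, IsOpen (U j)) (hne : ∀ j, (U j).Nonempty)
    (hY : ∀ j a b, AnalyticOnNhd ℂ (fun z => Y j z a b) (U j))
    (hsym : ∀ j, ∀ z ∈ U j, (Y j z).transpose * J' j * Y j z = J j)
    (hsp : ∀ j, ∀ g : Matrix (Fin (r j)) (Fin (r j)) ℂ, g.transpose * J j * g = J j → g ∈ GalU (U j) (Y j)) :
    ∃ (ω : ℝ → ℕ) (T₀ : ℝ), Tendsto ω atTop atTop ∧ Monotone ω ∧ ∀ T, T₀ ≤ T → 0 < ω T ∧
      ∀ (K : Type) [Field K] [NumberField K], Module.finrank ℚ K ≤ ω T → ∀ (io : K →+* ℂ) (ξ : Fin (ω T) → ℂ),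
        (ExcP J J' U Y K io (ω T) ξ T).Finite ∧
          ((ExcP J J' U Y K io (ω T) ξ T).ncard : ℝ) ≤
            T ^ ((ω T : ℝ)⁻¹) * ({x : K | Y120.HtLe K T x}.ncard : ℝ) ^ n := by
  have hf : ∀ j y, AnalyticOnNhd ℂ (ff Y j y) (U j) := by
    intro j y
    unfold ff
    by_cases hy : y.1 = j
    · obtain ⟨j', ab⟩ := y
      obtain rfl : j' = j := hy
      simp only [if_pos]
      exact hY _ _ _
    · simp only [if_neg hy]
      exact analyticOnNhd_const
  obtain ⟨ω, T₀, h1, h2, h3⟩ := exc_omega hU hUo hne hf fun j => regular_ff (r := r) (Y := Y)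
    (regular_of (hJ j) (hdet j) (hU j) (hY j) (hsym j) (hsp j))
  refine ⟨ω, max T₀ 1, h1, h2, fun T hT => ?_⟩
  have hT1 : T₀ ≤ T := (le_max_left _ _).trans hT
  have hT0 : 0 < T := lt_of_lt_of_le one_pos ((le_max_right _ _).trans hT)
  obtain ⟨h4, h5⟩ := h3 T hT1
  refine ⟨h4, fun K _ _ hK io ξ => ?_⟩
  obtain ⟨h6, h7⟩ := h5 K hK io ξ
  have h8 := excP_sub (J := J) (J' := J') (U := U) (Y := Y) hdet hsym hsp io h4 ξ hT0
  exact ⟨h6.subset h8, le_trans (by exact_mod_cast Set.ncard_le_ncard h8 h6) h7⟩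

end Pool.Agent.Y119.PL
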