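import Pool.Agent.Y119.PL.Irr
import Pool.Agent.Y890.SP.Ana

/-!
# Unipotent local monodromies preserve the relations
-/

set_option autoImplicit false

open Filter Topology Matrix Polynomial

namespace Pool.Agent.Y119.PL

open Pool.Agent.Y119.HY Pool.Agent.Y890.SP

variable {n : ℕ}

/-! ### separation on a half-plane -/

theorem half_sep {p : ℂ} {ρ : ℝ} {f : ℂ → ℂ[X]} (hf : PA (Metric.ball p ρ) f) {Ω : Set ℂ} (hΩ : IsOpen Ω)
    (hne : Ω.Nonempty) (hΩρ : ∀ w ∈ Ω, ‖Complex.exp w‖ < ρ)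
    (h : ∀ w ∈ Ω, (f (p + Complex.exp w)).eval w = 0) : ∀ z ∈ Metric.ball p ρ, f z = 0 := by
  obtain ⟨h1, d, hd⟩ := hf
  obtain ⟨w0, hw0⟩ := hne
  have hρ : 0 < ρ := lt_of_le_of_lt (norm_nonneg _) (hΩρ w0 hw0)
  set HP : Set ℂ := {w | w.re < Real.log ρ} with hHP
  have hmem : ∀ w, w ∈ HP ↔ ‖Complex.exp w‖ < ρ := by
    intro w
    rw [Complex.norm_exp, hHP, Set.mem_ofPred_eq, Real.lt_log_iff_exp_lt hρ]
  have hmap : ∀ w ∈ HP, p + Complex.exp w ∈ Metric.ball p ρ := by
    intro w hw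
    rw [Metric.mem_ball, dist_eq_norm, add_sub_cancel_left]
    exact (hmem w).1 hw
  -- the function on the half-plane
  set g : ℂ → ℂ := fun w => ∑ j ∈ Finset.range d, (f (p + Complex.exp w)).coeff j * w ^ j with hg
  have hge : ∀ w, g w = (f (p + Complex.exp w)).eval w := fun w => (Polynomial.eval_eq_sum_range' (hd _) w).symm
  have hgan : AnalyticOnNhd ℂ g HP := by
    refine Finset.analyticOnNhd_fun_sum _ fun j _ => AnalyticOnNhd.mul ?_ ((analyticOnNhd_id).pow j)
    intro w hw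
    have hin : AnalyticAt ℂ (fun w : ℂ => p + Complex.exp w) w := analyticAt_const.add analyticAt_cexp
    exact AnalyticAt.fun_comp (g := fun z => (f z).coeff j) (f := fun w => p + Complex.exp w) (h1 j _ (hmap w hw)) hin
  have hpre : IsPreconnected HP := (convex_halfSpace_re_lt _).isPreconnected
  have hz : ∀ w ∈ HP, g w = 0 := by
    have h2 : ∀ᶠ w in 𝓝 w0, g w = 0 := by
      filter_upwards [hΩ.mem_nhds hw0] with w hw
      rw [hge]
      exact h w hw
    exact hgan.eqOn_zero_of_preconnected_of_eventuallyEq_zero hpre ((hmem w0).2 (hΩρ w0 hw0)) h2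
  -- separation
  have hp : p ∈ Metric.ball p ρ := Metric.mem_ball_self hρ
  have h3 := log_sep (d := d) (fun j z => (f (p + z)).coeff j) (fun j _ => by
    have h4 : AnalyticAt ℂ (fun z => (f z).coeff j) (p + 0) := by rw [add_zero]; exact h1 j p hp
    exact h4.fun_comp (analyticAt_const.add analyticAt_id)) (by
    have : ∀ᶠ x : ℝ in 𝓝[>] 0, x < ρ := tendsto_nhdsWithin_of_tendsto_nhds tendsto_id (gt_mem_nhds hρ)
    filter_upwards [this, self_mem_nhdsWithin] with x hx hx0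
    have hx0' : (0 : ℝ) < x := hx0
    have h5 : Complex.exp ((Real.log x : ℝ) : ℂ) = (x : ℂ) := by
      rw [← Complex.ofReal_exp, Real.exp_log hx0']
    have h6 := hz ((Real.log x : ℝ) : ℂ) ((hmem _).2 (by
      rw [h5, Complex.norm_real, Real.norm_eq_abs, abs_of_pos hx0']
      exact hx))
    rw [hg] at h6
    simp only [h5] at h6
    exact h6)
  intro z hzb
  ext j
  rw [coeff_zero]
  by_cases hj : j < d
  · refine (h1 j).eqOn_zero_of_preconnected_of_eventuallyEq_zero (convex_ball _ _).isPreconnected hp ?_ hzb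
    have h4 := h3 j hj
    have h5 : Tendsto (fun z : ℂ => z - p) (𝓝 p) (𝓝 0) := by
      have : Tendsto (fun z : ℂ => z - p) (𝓝 p) (𝓝 (p - p)) := tendsto_id.sub tendsto_const_nhds
      rwa [sub_self] at this
    filter_upwards [h5.eventually h4] with z hz'
    simpa using hz'
  · exact coeff_eq_zero_of_natDegree_lt (lt_of_lt_of_le (hd z) (not_lt.1 hj))

/-! ### polynomials in the entries of a matrix -/

/-- the value of a polynomial in `z` and the entries of a matrix -/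
noncomputable def vl (P : MvPolynomial (Fin n × Fin n) ℂ[X]) (z : ℂ) (X : Matrix (Fin n) (Fin n) ℂ) : ℂ :=
  MvPolynomial.eval₂ (Polynomial.evalRingHom z) (fun i => X i.1 i.2) P

/-- the same for matrices of polynomials -/
noncomputable def vp (P : MvPolynomial (Fin n × Fin n) ℂ[X]) (z : ℂ) (X : Matrix (Fin n) (Fin n) ℂ[X]) : ℂ[X] :=
  MvPolynomial.eval₂ (Polynomial.C.comp (Polynomial.evalRingHom z)) (fun i => X i.1 i.2) P

lemma eval_vp (P : MvPolynomial (Fin n × Fin n) ℂ[X]) (z : ℂ) (X : Matrix (Fin n) (Fin n) ℂ[X]) (s : ℂ) :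
    (vp P z X).eval s = vl P z (X.map (Polynomial.eval s)) := by
  unfold vp vl
  rw [← Polynomial.coe_evalRingHom s, MvPolynomial.hom_eval₂]
  congr 1
  ext <;> simp

/-- substitution `X ↦ X g` -/
noncomputable def sg (g : Matrix (Fin n) (Fin n) ℂ) (P : MvPolynomial (Fin n × Fin n) ℂ[X]) :
    MvPolynomial (Fin n × Fin n) ℂ[X] :=
  MvPolynomial.bind₁ (fun i : Fin n × Fin n => ∑ k, MvPolynomial.X (i.1, k) * MvPolynomial.C (Polynomial.C (g k i.2))) P

lemma vl_sg (g : Matrix (Fin n) (Fin n) ℂ) (P : MvPolynomial (Fin n × Fin n) ℂ[X]) (z : ℂ)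
    (X : Matrix (Fin n) (Fin n) ℂ) : vl (sg g P) z X = vl P z (X * g) := by
  unfold vl sg
  induction P using MvPolynomial.induction_on with
  | C a => simp
  | add p q hp hq => simp only [map_add, MvPolynomial.eval₂_add, hp, hq]
  | mul_X p i hp =>
    simp only [map_mul, MvPolynomial.eval₂_mul, hp, MvPolynomial.bind₁_X_right, MvPolynomial.eval₂_X,
      MvPolynomial.eval₂_sum, MvPolynomial.eval₂_C]
    congr 1
    simp [Matrix.mul_apply]

/-- rescaling: `(z - p) ^ (k D) P(z, X) = P'(z, (z - p) ^ k X)` -/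
lemma exists_rescale (P : MvPolynomial (Fin n × Fin n) ℂ[X]) (p : ℂ) (k : ℕ) :
    ∃ (D : ℕ) (P' : MvPolynomial (Fin n × Fin n) ℂ[X]), ∀ (z : ℂ) (X : Matrix (Fin n) (Fin n) ℂ),
      (z - p) ^ D * vl P z X = vl P' z ((z - p) ^ k • X) := by
  induction P using MvPolynomial.induction_on with
  | C a => exact ⟨0, MvPolynomial.C a, fun z X => by simp [vl]⟩
  | add P Q hP hQ =>
    obtain ⟨D1, P', h1⟩ := hP
    obtain ⟨D2, Q', h2⟩ := hQ
    refine ⟨D1 + D2, MvPolynomial.C ((X - C p) ^ D2) * P' + MvPolynomial.C ((X - C p) ^ D1) * Q', fun z X => ?_⟩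
    have h3 : vl (MvPolynomial.C ((Polynomial.X - C p) ^ D2) * P' + MvPolynomial.C ((Polynomial.X - C p) ^ D1) * Q') z
        ((z - p) ^ k • X) = (z - p) ^ D2 * vl P' z ((z - p) ^ k • X) + (z - p) ^ D1 * vl Q' z ((z - p) ^ k • X) := by
      simp [vl]
    rw [h3, ← h1, ← h2]
    have h4 : vl (P + Q) z X = vl P z X + vl Q z X := MvPolynomial.eval₂_add _ _
    rw [h4]
    ring
  | mul_X P i hP =>
    obtain ⟨D, P', h1⟩ := hP
    refine ⟨D + k, P' * MvPolynomial.X i, fun z X => ?_⟩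
    have h2 : vl (P * MvPolynomial.X i) z X = vl P z X * X i.1 i.2 := by simp [vl]
    have h3 : vl (P' * MvPolynomial.X i) z ((z - p) ^ k • X) = vl P' z ((z - p) ^ k • X) * ((z - p) ^ k * X i.1 i.2) := by
      simp [vl]
    rw [h2, h3, ← h1]
    ring

/-! ### local monodromy -/

/-- `N` is the logarithm of the (unipotent) local monodromy of `Y` at `p`: there are matrices `B` of analytic functions
on a disc around `p` such that `(z - p) ^ k Y(z) = B(z) exp(w N)`, `z = p + exp w`, for some branch of `w = log (z - p)`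
somewhere in `U` -/
def Mono (U : Set ℂ) (Y : ℂ → Matrix (Fin n) (Fin n) ℂ) (p : ℂ) (N : Matrix (Fin n) (Fin n) ℂ) : Prop :=
  ∃ (ρ : ℝ) (k : ℕ) (B : ℂ → Matrix (Fin n) (Fin n) ℂ) (Ω : Set ℂ),
    (∀ i j, AnalyticOnNhd ℂ (fun z => B z i j) (Metric.ball p ρ)) ∧ IsOpen Ω ∧ Ω.Nonempty ∧
    ∀ w ∈ Ω, ‖Complex.exp w‖ < ρ ∧ p + Complex.exp w ∈ U ∧
      Complex.exp w ^ k • Y (p + Complex.exp w) = B (p + Complex.exp w) * NormedSpace.exp (w • N)

lemma PA.vp {U : Set ℂ} {F : ℂ → Matrix (Fin n) (Fin n) ℂ[X]} (hF : ∀ i j, PA U fun z => F z i j)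
    (P : MvPolynomial (Fin n × Fin n) ℂ[X]) : PA U fun z => Pool.Agent.Y119.PL.vp P z (F z) := by
  unfold Pool.Agent.Y119.PL.vp
  induction P using MvPolynomial.induction_on with
  | C a =>
    simp only [MvPolynomial.eval₂_C]
    exact PA.ofFun (AnalyticOnNhd.eval_polynomial (A := ℂ) a |>.mono (Set.subset_univ _))
  | add p q hp hq => simp only [MvPolynomial.eval₂_add]; exact hp.add hq
  | mul_X p i hp => simp only [MvPolynomial.eval₂_mul, MvPolynomial.eval₂_X]; exact hp.mul (hF i.1 i.2)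

/-- the relations -/
def IsRel (U : Set ℂ) (Y : ℂ → Matrix (Fin n) (Fin n) ℂ) (P : MvPolynomial (Fin n × Fin n) ℂ[X]) : Prop :=
  ∀ z ∈ U, vl P z (Y z) = 0

lemma vl_an {U : Set ℂ} {Y : ℂ → Matrix (Fin n) (Fin n) ℂ} (hY : ∀ i j, AnalyticOnNhd ℂ (fun z => Y z i j) U)
    (P : MvPolynomial (Fin n × Fin n) ℂ[X]) : AnalyticOnNhd ℂ (fun z => vl P z (Y z)) U :=
  evF_an (f := fun (i : Fin n × Fin n) z => Y z i.1 i.2) (fun i => hY i.1 i.2) P

theorem mono_rel {U : Set ℂ} {Y : ℂ → Matrix (Fin n) (Fin n) ℂ} (hU : IsPreconnected U)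
    (hY : ∀ i j, AnalyticOnNhd ℂ (fun z => Y z i j) U) {p : ℂ} {N : Matrix (Fin n) (Fin n) ℂ} (hN : N ^ n = 0)
    (hM : Mono U Y p N) (c : ℂ) {P : MvPolynomial (Fin n × Fin n) ℂ[X]} (hP : IsRel U Y P) :
    ∀ z ∈ U, vl P z (Y z * E N c) = 0 := by
  obtain ⟨ρ, k, B, Ω, hB, hΩ, hne, hw⟩ := hM
  obtain ⟨D, P', hP'⟩ := exists_rescale P p k
  have hcE : ∀ s, NormedSpace.exp (s • N) = E N s := fun s => (E_exp hN s).symm
  -- the polynomial in the logarithm
  have hPA : PA (Metric.ball p ρ) fun z => vp P' z ((B z).map C * Ep N) := by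
    refine PA.vp (F := fun z => (B z).map C * Ep N) (fun i j => ?_) P'
    have h1 : (fun z => ((B z).map C * Ep N) i j) = fun z => ∑ l, C (B z i l) * Ep N l j := by
      funext z
      rw [Matrix.mul_apply]
      rfl
    rw [h1]
    exact PA.sum _ fun l _ => (PA.ofFun (hB i l)).mul (PA.const _)
  have hev : ∀ z s, (vp P' z ((B z).map C * Ep N)).eval s = vl P' z (B z * E N s) := by
    intro z s
    rw [eval_vp, map_mul_eval, map_C_eval, Ep_eval]
  have hkey := half_sep hPA hΩ hne (fun w hw' => (hw w hw').1) (by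
    intro w hw'
    obtain ⟨h1, h2, h3⟩ := hw w hw'
    rw [hev, ← hcE, ← h3]
    have h4 := hP' (p + Complex.exp w) (Y (p + Complex.exp w))
    rw [add_sub_cancel_left] at h4
    rw [← h4, hP _ h2, mul_zero])
  have hzero : ∀ w ∈ Ω, vl P (p + Complex.exp w) (Y (p + Complex.exp w) * E N c) = 0 := by
    intro w hw'
    obtain ⟨h1, h2, h3⟩ := hw w hw'
    have h4 := hP' (p + Complex.exp w) (Y (p + Complex.exp w) * E N c)
    rw [add_sub_cancel_left, ← Matrix.smul_mul, h3, hcE, Matrix.mul_assoc, ← E_add hN, ← hev,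
      hkey _ (by rw [Metric.mem_ball, dist_eq_norm, add_sub_cancel_left]; exact h1), Polynomial.eval_zero] at h4
    exact (mul_eq_zero.1 h4).resolve_left (pow_ne_zero _ (Complex.exp_ne_zero w))
  -- the identity theorem
  obtain ⟨w0, hw0⟩ := hne
  have han : AnalyticOnNhd ℂ (fun z => vl P z (Y z * E N c)) U := by
    have h1 : (fun z => vl P z (Y z * E N c)) = fun z => vl (sg (E N c) P) z (Y z) := by
      funext z
      rw [vl_sg]
    rw [h1]
    exact vl_an hY _
  have hev0 : ∀ᶠ z in 𝓝 (p + Complex.exp w0), vl P z (Y z * E N c) = 0 := by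
    have h1 : HasStrictDerivAt (fun w : ℂ => p + Complex.exp w) (Complex.exp w0) w0 := (Complex.hasStrictDerivAt_exp w0).const_add p
    have h2 := h1.map_nhds_eq (Complex.exp_ne_zero w0)
    rw [← h2]
    exact (Filter.eventually_map).2 (Filter.mem_of_superset (hΩ.mem_nhds hw0) hzero)
  exact han.eqOn_zero_of_preconnected_of_eventuallyEq_zero hU (hw w0 hw0).2.1 hev0

end Pool.Agent.Y119.PL
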