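import Pool.Agent.Y119.PL.Mon

/-!
# The functional relations between the periods of families of Picard-Lefschetz type, and regularity
-/

set_option autoImplicit false

open Filter Topology Matrix Polynomial

namespace Pool.Agent.Y119.PL

open Pool.Agent.Y119.HY Pool.Agent.Y890.SP

variable {n : ℕ}

/-- matrices which preserve the relations -/
def GalU (U : Set ℂ) (Y : ℂ → Matrix (Fin n) (Fin n) ℂ) : Submonoid (Matrix (Fin n) (Fin n) ℂ) where
  carrier := {g | ∀ P, IsRel U Y P → ∀ z ∈ U, vl P z (Y z * g) = 0}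
  mul_mem' := by
    intro g h hg hh P hP z hz
    have h1 : IsRel U Y (sg h P) := fun y hy => by rw [vl_sg]; exact hh P hP y hy
    have h2 := hg _ h1 z hz
    rw [vl_sg, Matrix.mul_assoc] at h2
    exact h2
  one_mem' := by
    intro P hP z hz
    rw [mul_one]
    exact hP z hz

lemma mem_GalU {U : Set ℂ} {Y : ℂ → Matrix (Fin n) (Fin n) ℂ} {g : Matrix (Fin n) (Fin n) ℂ} :
    g ∈ GalU U Y ↔ ∀ P, IsRel U Y P → ∀ z ∈ U, vl P z (Y z * g) = 0 := Iff.rfl

lemma GalU_closed (U : Set ℂ) (Y : ℂ → Matrix (Fin n) (Fin n) ℂ) (M : Matrix (Fin n) (Fin n) (Polynomial ℂ))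
    (hM : ∀ c : ℂ, c ≠ 0 → M.map (Polynomial.eval c) ∈ GalU U Y) : M.map (Polynomial.eval 0) ∈ GalU U Y := by
  intro P hP x hx
  set q : ℂ[X] := vp P x ((Y x).map C * M) with hq
  have hqe : ∀ c, q.eval c = vl P x (Y x * M.map (Polynomial.eval c)) := by
    intro c
    rw [hq, eval_vp, map_mul_eval, map_C_eval]
  have h0 : q = 0 := by
    refine Polynomial.eq_zero_of_infinite_isRoot q (Set.Infinite.mono (s := ({0} : Set ℂ)ᶜ) ?_
      (Set.finite_singleton (0 : ℂ)).infinite_compl)
    intro c hc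
    show q.eval c = 0
    rw [hqe]
    exact hM c hc P hP x hx
  rw [← hqe, h0, Polynomial.eval_zero]

section main

variable {J J' : Matrix (Fin n) (Fin n) ℂ} {U : Set ℂ} {Y : ℂ → Matrix (Fin n) (Fin n) ℂ}

/-- **Functional relations are invariant under the symplectic group.** -/
theorem sp_gal {ι : Type*} (hJ : J.transpose = -J) (hdet : J.det ≠ 0) (hU : IsPreconnected U)
    (hY : ∀ i j, AnalyticOnNhd ℂ (fun z => Y z i j) U) {p : ι → ℂ} {N : ι → Matrix (Fin n) (Fin n) ℂ}
    (hN : ∀ i, N i ^ n = 0) (hNJ : ∀ i, (N i).transpose * J + J * N i = 0) (hM : ∀ i, Mono U Y (p i) (N i))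
    {i0 : ι} {u : Fin n → ℂ} {c : ℂ} (hu0 : u ≠ 0) (hc : c ≠ 0) (hi0 : ∀ x, N i0 *ᵥ x = (c * om J u x) • u)
    (hirr : ∀ W : Submodule ℂ (Fin n → ℂ), (∀ i, ∀ x ∈ W, N i *ᵥ x ∈ W) → W = ⊥ ∨ W = ⊤)
    (g : Matrix (Fin n) (Fin n) ℂ) (hg : g.transpose * J * g = J) : g ∈ GalU U Y := by
  have hn : 2 ≤ n := two_le hJ hdet hu0
  have hE : ∀ i, ∀ c : ℂ, E (N i) c ∈ GalU U Y := fun i c P hP => mono_rel hU hY (hN i) (hM i) c hP
  refine sp_all2 hJ hdet hN hNJ hu0 (GalU U Y) hE (fun s => ?_) (GalU_closed U Y) hirr hn g hg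
  have h1 := hE i0 (s / c)
  rw [E_smul_tv hn hJ hi0, div_mul_cancel₀ _ hc] at h1
  exact h1

lemma two_poly {A B R : ℂ[X]} (hR : R ≠ 0) {m : ℕ} (hm : R.natDegree ≤ m)
    (h : ∀ s, ∑ i ∈ Finset.range (m + 1), R.coeff i * A.eval s ^ i * B.eval s ^ (m - i) = 0) (s : ℂ) :
    A.eval s * B.eval 0 = A.eval 0 * B.eval s := by
  by_cases hB : B = 0
  · rw [hB, Polynomial.eval_zero, Polynomial.eval_zero, mul_zero, mul_zero]
  have h1 : B * (R.roots.map fun l => A - C l * B).prod = 0 := by
    refine Polynomial.funext fun s => ?_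
    rw [Polynomial.eval_zero, Polynomial.eval_mul]
    by_cases hs : B.eval s = 0
    · rw [hs, zero_mul]
    · have h2 : R.eval (A.eval s / B.eval s) = 0 := by
        have h3 : B.eval s ^ m * R.eval (A.eval s / B.eval s) = 0 := by
          rw [← h s, Polynomial.eval_eq_sum_range' (Nat.lt_succ_of_le hm), Finset.mul_sum]
          refine Finset.sum_congr rfl fun i hi => ?_
          have hi' : i ≤ m := Nat.lt_succ_iff.1 (Finset.mem_range.1 hi)
          rw [div_pow]
          have h4 : B.eval s ^ m = B.eval s ^ i * B.eval s ^ (m - i) := by rw [← pow_add]; congr 1; omega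
          rw [h4]
          field_simp
        exact (mul_eq_zero.1 h3).resolve_left (pow_ne_zero _ hs)
      have h3 : A.eval s / B.eval s ∈ R.roots := (Polynomial.mem_roots hR).2 h2
      have h4 : ((R.roots.map fun l => A - C l * B).prod).eval s = 0 := by
        rw [Polynomial.eval_multiset_prod, Multiset.map_map]
        refine Multiset.prod_eq_zero (Multiset.mem_map.2 ⟨_, h3, ?_⟩)
        show (A - C (A.eval s / B.eval s) * B).eval s = 0
        rw [Polynomial.eval_sub, Polynomial.eval_mul, Polynomial.eval_C, div_mul_cancel₀ _ hs, sub_self]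
      rw [h4, mul_zero]
  have h2 := (mul_eq_zero.1 h1).resolve_left hB
  obtain ⟨l, -, hl⟩ := Multiset.mem_map.1 (Multiset.prod_eq_zero_iff.1 h2)
  have h3 : A = C l * B := sub_eq_zero.1 hl
  simp only [h3, Polynomial.eval_mul, Polynomial.eval_C]
  ring

lemma inv_isom (hdet : J.det ≠ 0) {g : Matrix (Fin n) (Fin n) ℂ} (hg : g.transpose * J * g = J) :
    g * g⁻¹ = 1 ∧ (g⁻¹).transpose * J * g⁻¹ = J := by
  have h1 : g.det ≠ 0 := by
    intro h
    apply hdet
    rw [← hg, det_mul, h, mul_zero]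
  have h2 : g * g⁻¹ = 1 := mul_nonsing_inv _ (Ne.isUnit h1)
  have h3 : g⁻¹ * g = 1 := nonsing_inv_mul _ (Ne.isUnit h1)
  refine ⟨h2, ?_⟩
  calc (g⁻¹).transpose * J * g⁻¹ = (g⁻¹).transpose * (g.transpose * J * g) * g⁻¹ := by rw [hg]
    _ = (g * g⁻¹).transpose * J * (g * g⁻¹) := by rw [transpose_mul]; simp only [Matrix.mul_assoc]
    _ = J := by rw [h2, transpose_one, one_mul, mul_one]

/-- **Regularity.** -/
theorem regular_of (hJ : J.transpose = -J) (hdet : J.det ≠ 0) (hU : IsPreconnected U)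
    (hY : ∀ i j, AnalyticOnNhd ℂ (fun z => Y z i j) U) (hsym : ∀ z ∈ U, (Y z).transpose * J' * Y z = J)
    (hsp : ∀ g : Matrix (Fin n) (Fin n) ℂ, g.transpose * J * g = J → g ∈ GalU U Y) :
    Regular U (fun (i : Fin n × Fin n) z => Y z i.1 i.2) := by
  intro V g P Q R hVo hVne hVU hg hR hQ hPQ hRg
  have hev : ∀ x (P : MvPolynomial (Fin n × Fin n) ℂ[X]), evF (fun (i : Fin n × Fin n) z => Y z i.1 i.2) x P = vl P x (Y x) :=
    fun _ _ => rfl
  simp only [hev] at hQ hPQ
  obtain ⟨x1, hx1⟩ := hVne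
  -- the homogenized relation
  set m := R.natDegree with hm
  set W : MvPolynomial (Fin n × Fin n) ℂ[X] :=
    ∑ i ∈ Finset.range (m + 1), MvPolynomial.C (R.coeff i) * P ^ i * Q ^ (m - i) with hWd
  have hWe : ∀ x X, vl W x X = ∑ i ∈ Finset.range (m + 1), (R.coeff i).eval x * vl P x X ^ i * vl Q x X ^ (m - i) := by
    intro x X
    simp only [vl, hWd, MvPolynomial.eval₂_sum, MvPolynomial.eval₂_mul, MvPolynomial.eval₂_pow,
      MvPolynomial.eval₂_C, coe_evalRingHom]
  have hWV : ∀ x ∈ V, vl W x (Y x) = 0 := by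
    intro x hx
    have h1 : vl W x (Y x) = vl Q x (Y x) ^ m * (R.map (Polynomial.evalRingHom x)).eval (g x) := by
      rw [hWe, eval_map, eval₂_eq_sum_range, Finset.mul_sum]
      refine Finset.sum_congr rfl fun i hi => ?_
      have hi' : i ≤ m := Nat.lt_succ_iff.1 (Finset.mem_range.1 hi)
      have h4 : vl Q x (Y x) ^ m = vl Q x (Y x) ^ i * vl Q x (Y x) ^ (m - i) := by
        rw [← pow_add]; congr 1; omega
      rw [h4, ← hPQ x hx]
      simp only [coe_evalRingHom]
      ring
    rw [h1, hRg x hx, mul_zero]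
  have hW : IsRel U Y W := by
    refine (vl_an hY W).eqOn_zero_of_preconnected_of_eventuallyEq_zero hU (hVU hx1) ?_
    filter_upwards [hVo.mem_nhds hx1] with x hx
    exact hWV x hx
  -- the set of good group elements
  let K : Matrix (Fin n) (Fin n) ℂ → MvPolynomial (Fin n × Fin n) ℂ[X] := fun h => sg h P * Q - P * sg h Q
  have hKe : ∀ h x X, vl (K h) x X = vl P x (X * h) * vl Q x X - vl P x X * vl Q x (X * h) := by
    intro h x X
    have h1 : vl (K h) x X = vl (sg h P) x X * vl Q x X - vl P x X * vl (sg h Q) x X := by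
      simp only [K, vl, sub_eq_add_neg, MvPolynomial.eval₂_add, MvPolynomial.eval₂_mul, MvPolynomial.eval₂_neg]
    rw [h1, vl_sg, vl_sg]
  let 𝒮 : Submonoid (Matrix (Fin n) (Fin n) ℂ) :=
    { carrier := {h | h.transpose * J * h = J ∧ IsRel U Y (K h)}
      mul_mem' := by
        rintro h h' ⟨hh, hhK⟩ ⟨hh', hhK'⟩
        refine ⟨?_, ?_⟩
        · calc (h * h').transpose * J * (h * h') = h'.transpose * (h.transpose * J * h) * h' := by
                rw [transpose_mul]; simp only [Matrix.mul_assoc]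
            _ = J := by rw [hh, hh']
        · have h1 : ∀ x ∈ U, vl P x (Y x * h * h') * vl Q x (Y x * h) - vl P x (Y x * h) * vl Q x (Y x * h * h') = 0 := by
            intro x hx
            rw [← hKe]
            exact hsp h hh (K h') hhK' x hx
          have h2 : ∀ x ∈ U, vl P x (Y x * h) * vl Q x (Y x) - vl P x (Y x) * vl Q x (Y x * h) = 0 := by
            intro x hx
            rw [← hKe]
            exact hhK x hx
          have h3 : ∀ x ∈ U, vl (sg h Q) x (Y x) * vl (K (h * h')) x (Y x) = 0 := by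
            intro x hx
            rw [vl_sg, hKe, ← Matrix.mul_assoc]
            linear_combination (vl Q x (Y x)) * h1 x hx + (vl Q x (Y x * h * h')) * h2 x hx
          rcases (vl_an hY (sg h Q)).eq_zero_or_eq_zero_of_mul_eq_zero (vl_an hY (K (h * h'))) h3 hU with h4 | h4
          · exfalso
            obtain ⟨h5, h6⟩ := inv_isom hdet hh
            have h5' : h⁻¹ * h = 1 := by rw [mul_eq_one_comm]; exact h5
            have h7 := hsp _ h6 (sg h Q) h4 x1 (hVU hx1)
            rw [vl_sg, Matrix.mul_assoc, h5', mul_one] at h7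
            exact hQ x1 hx1 h7
          · exact h4
      one_mem' := by
        refine ⟨by rw [transpose_one, one_mul, mul_one], fun x _ => ?_⟩
        rw [hKe, mul_one]
        ring }
  -- transvections are good
  have htv : ∀ v s, tv J v s ∈ 𝒮 := by
    intro v s
    refine ⟨tv_isom hJ v s, ?_⟩
    obtain ⟨i0, hi0⟩ : ∃ i, R.coeff i ≠ 0 := by
      by_contra hcon
      push Not at hcon
      exact hR (Polynomial.ext fun i => by rw [hcon i, coeff_zero])
    have hgood : ∀ x ∈ V, (R.coeff i0).eval x ≠ 0 → vl (K (tv J v s)) x (Y x) = 0 := by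
      intro x hx hx0
      set M : Matrix (Fin n) (Fin n) ℂ[X] := 1 + (X : ℂ[X]) • (vecMulVec v (v ᵥ* J)).map C with hMd
      have hMe : ∀ c, M.map (Polynomial.eval c) = tv J v c := by
        intro c
        ext a b
        unfold tv
        rw [hMd]
        simp only [Matrix.map_apply, Matrix.add_apply, Matrix.smul_apply, smul_eq_mul, Polynomial.eval_add,
          Polynomial.eval_mul, Polynomial.eval_X, Polynomial.eval_C]
        congr 1
        rw [Matrix.one_apply, Matrix.one_apply]
        split_ifs <;> simp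
      have he : ∀ (P : MvPolynomial (Fin n × Fin n) ℂ[X]) c, (vp P x ((Y x).map C * M)).eval c =
          vl P x (Y x * tv J v c) := by
        intro P c
        rw [eval_vp, map_mul_eval, map_C_eval, hMe]
      have hRx : R.map (Polynomial.evalRingHom x) ≠ 0 := by
        intro h
        apply hx0
        have := congrArg (fun p => Polynomial.coeff p i0) h
        simpa using this
      have h0 : tv J v 0 = 1 := by
        unfold tv
        rw [zero_smul, add_zero]
      have h1 := two_poly (A := vp P x ((Y x).map C * M)) (B := vp Q x ((Y x).map C * M)) hRx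
        (m := m) Polynomial.natDegree_map_le (fun c => by
          rw [he, he]
          have h2 := hsp _ (tv_isom hJ v c) W hW x (hVU hx)
          rw [hWe] at h2
          rw [← h2]
          refine Finset.sum_congr rfl fun i _ => ?_
          rw [coeff_map, coe_evalRingHom]) s
      rw [he, he, he, he, h0, mul_one] at h1
      rw [hKe, h1, sub_self]
    obtain ⟨x0, hx0V, hx0⟩ : ∃ x ∈ V, (R.coeff i0).eval x ≠ 0 := by
      by_contra hcon
      push Not at hcon
      exact hi0 (Polynomial.eq_zero_of_infinite_isRoot _ ((infinite_of_mem_nhds x1 (hVo.mem_nhds hx1)).mono hcon))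
    refine (vl_an hY _).eqOn_zero_of_preconnected_of_eventuallyEq_zero hU (hVU hx0V) ?_
    have h1 : ∀ᶠ x in 𝓝 x0, (R.coeff i0).eval x ≠ 0 :=
      (R.coeff i0).continuous.continuousAt.eventually_ne hx0
    filter_upwards [h1, hVo.mem_nhds hx0V] with x h2 h3
    exact hgood x h3 h2
  have hall : ∀ h : Matrix (Fin n) (Fin n) ℂ, h.transpose * J * h = J → IsRel U Y (K h) :=
    fun h hh => (sp_of_tv hJ hdet 𝒮 htv h hh).2
  -- evaluation at a constant point
  let pc : MvPolynomial (Fin n × Fin n) ℂ[X] → ℂ[X] := fun P =>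
    MvPolynomial.eval₂ (RingHom.id ℂ[X]) (fun i => C (Y x1 i.1 i.2)) P
  have hpc : ∀ P x, (pc P).eval x = vl P x (Y x1) := by
    intro P x
    simp only [pc, vl]
    rw [← Polynomial.coe_evalRingHom x, MvPolynomial.hom_eval₂]
    congr 1
    ext <;> simp
  refine ⟨pc P, pc Q, ?_, fun x hx => ?_⟩
  · intro h
    apply hQ x1 hx1
    rw [← hpc, h, Polynomial.eval_zero]
  · have hdY : (Y x).det ≠ 0 := by
      intro h
      apply hdet
      rw [← hsym x (hVU hx), det_mul, h, mul_zero]
    have h1 : Y x * (Y x)⁻¹ = 1 := mul_nonsing_inv _ (Ne.isUnit hdY)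
    have h2 : (Y x)⁻¹ * Y x = 1 := nonsing_inv_mul _ (Ne.isUnit hdY)
    have h3 : ((Y x)⁻¹).transpose * J * (Y x)⁻¹ = J' := by
      rw [← hsym x (hVU hx)]
      calc ((Y x)⁻¹).transpose * ((Y x).transpose * J' * Y x) * (Y x)⁻¹ =
            (Y x * (Y x)⁻¹).transpose * J' * (Y x * (Y x)⁻¹) := by
              rw [transpose_mul]; simp only [Matrix.mul_assoc]
        _ = J' := by rw [h1, transpose_one, one_mul, mul_one]
    have h4 : ((Y x)⁻¹ * Y x1).transpose * J * ((Y x)⁻¹ * Y x1) = J := by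
      calc ((Y x)⁻¹ * Y x1).transpose * J * ((Y x)⁻¹ * Y x1) =
            (Y x1).transpose * (((Y x)⁻¹).transpose * J * (Y x)⁻¹) * Y x1 := by
              rw [transpose_mul]; simp only [Matrix.mul_assoc]
        _ = J := by rw [h3]; exact hsym x1 (hVU hx1)
    have h5 := hall _ h4 x (hVU hx)
    rw [hKe, ← Matrix.mul_assoc, h1, one_mul, ← hPQ x hx] at h5
    rw [hpc, hpc]
    have h6 : vl Q x (Y x) * (vl Q x (Y x1) * g x - vl P x (Y x1)) = 0 := by linear_combination -h5
    exact sub_eq_zero.1 ((mul_eq_zero.1 h6).resolve_left (hQ x hx))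

end main

end Pool.Agent.Y119.PL
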