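import Pool.Agent.Y119.PL.Reg
import Pool.Agent.Y890.SP.Omega

/-!
# Tuples of families of Picard-Lefschetz type
-/

set_option autoImplicit false

open Filter Topology Matrix

namespace Pool.Agent.Y119.PL

open Pool.Agent.Y119.HY Pool.Agent.Y890.SP

variable {n : ℕ} {r : Fin (n + 1) → ℕ}

/-- the variables -/
abbrev Sg (r : Fin (n + 1) → ℕ) : Type := Σ j : Fin (n + 1), Fin (r j) × Fin (r j)

/-- the point with the given matrices -/
def pnt (X : ∀ j, Matrix (Fin (r j)) (Fin (r j)) ℂ) (y : Sg r) : ℂ := X y.1 y.2.1 y.2.2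

/-- the functions -/
def ff (Y : ∀ j, ℂ → Matrix (Fin (r j)) (Fin (r j)) ℂ) (j : Fin (n + 1)) (y : Sg r) (z : ℂ) : ℂ :=
  if y.1 = j then Y y.1 z y.2.1 y.2.2 else 0

/-- the variables of one family -/
noncomputable def vj {R : Type*} [CommRing R] (j : Fin (n + 1)) (c : Sg r → R) (y : Sg r) :
    MvPolynomial (Fin (r j) × Fin (r j)) R :=
  if h : y.1 = j then MvPolynomial.X (h ▸ y.2) else MvPolynomial.C (c y)

lemma vj_same {R : Type*} [CommRing R] (j : Fin (n + 1)) (c : Sg r → R) (y : Fin (r j) × Fin (r j)) :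
    vj j c ⟨j, y⟩ = MvPolynomial.X y := by
  unfold vj
  rw [dif_pos rfl]

lemma vj_ne {R : Type*} [CommRing R] {j : Fin (n + 1)} (c : Sg r → R) {y : Sg r} (h : y.1 ≠ j) :
    vj j c y = MvPolynomial.C (c y) := by
  unfold vj
  rw [dif_neg h]

lemma regular_ff {U : Fin (n + 1) → Set ℂ} {Y : ∀ j, ℂ → Matrix (Fin (r j)) (Fin (r j)) ℂ} {j : Fin (n + 1)}
    (h : Regular (U j) (fun (i : Fin (r j) × Fin (r j)) z => Y j z i.1 i.2)) : Regular (U j) (ff Y j) := by
  have key : ∀ (P : MvPolynomial (Sg r) (Polynomial ℂ)) (x : ℂ), evF (ff Y j) x P =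
      evF (fun (i : Fin (r j) × Fin (r j)) z => Y j z i.1 i.2) x (MvPolynomial.bind₁ (vj j fun _ => 0) P) := by
    intro P x
    unfold evF
    induction P using MvPolynomial.induction_on with
    | C a => simp
    | add p q hp hq => simp only [map_add, MvPolynomial.eval₂_add, hp, hq]
    | mul_X p y hp =>
      simp only [map_mul, MvPolynomial.eval₂_mul, hp, MvPolynomial.bind₁_X_right, MvPolynomial.eval₂_X]
      congr 1
      unfold ff
      by_cases hy : y.1 = j
      · obtain ⟨j', ab⟩ := y
        obtain rfl : j' = j := hy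
        rw [vj_same, if_pos rfl, MvPolynomial.eval₂_X]
      · rw [vj_ne _ hy, if_neg hy]
        simp
  intro V g P Q R hVo hVne hVU hg hR hQ hPQ hRg
  refine h V g (MvPolynomial.bind₁ (vj j fun _ => 0) P) (MvPolynomial.bind₁ (vj j fun _ => 0) Q) R hVo hVne hVU hg hR
    (fun x hx => ?_) (fun x hx => ?_) hRg
  · rw [← key]; exact hQ x hx
  · rw [← key, ← key]; exact hPQ x hx

/-- the value of a polynomial in `x` and the entries of the matrices -/
noncomputable def vA (A : MvPolynomial (Sg r) (MvPolynomial (Fin (n + 1)) ℂ)) (x : Fin (n + 1) → ℂ)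
    (X : ∀ j, Matrix (Fin (r j)) (Fin (r j)) ℂ) : ℂ :=
  MvPolynomial.eval₂ (MvPolynomial.eval x) (pnt X) A

/-- the restriction to one variable -/
noncomputable def A_j (A : MvPolynomial (Sg r) (MvPolynomial (Fin (n + 1)) ℂ)) (j : Fin (n + 1))
    (x : Fin (n + 1) → ℂ) (X : ∀ j, Matrix (Fin (r j)) (Fin (r j)) ℂ) :
    MvPolynomial (Fin (r j) × Fin (r j)) (Polynomial ℂ) :=
  MvPolynomial.eval₂ (MvPolynomial.C.comp
    (MvPolynomial.aeval (R := ℂ) fun j' => if j' = j then (Polynomial.X : Polynomial ℂ) else Polynomial.C (x j')).toRingHom)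
    (vj j fun y => Polynomial.C (pnt X y)) A

lemma vl_A_j (A : MvPolynomial (Sg r) (MvPolynomial (Fin (n + 1)) ℂ)) (j : Fin (n + 1))
    (x : Fin (n + 1) → ℂ) (X : ∀ j, Matrix (Fin (r j)) (Fin (r j)) ℂ) (z : ℂ) (M : Matrix (Fin (r j)) (Fin (r j)) ℂ) :
    vl (A_j A j x X) z M = vA A (Function.update x j z) (Function.update X j M) := by
  unfold vl A_j vA
  have h1 := MvPolynomial.hom_eval₂ A (MvPolynomial.C.comp
    (MvPolynomial.aeval (R := ℂ) fun j' => if j' = j then (Polynomial.X : Polynomial ℂ) else Polynomial.C (x j')).toRingHom)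
    (MvPolynomial.eval₂Hom (Polynomial.evalRingHom z) fun i : Fin (r j) × Fin (r j) => M i.1 i.2)
    (vj j fun y => Polynomial.C (pnt X y))
  rw [MvPolynomial.coe_eval₂Hom] at h1
  rw [h1]
  congr 1
  · ext j'
    · simp
    · simp only [RingHom.comp_apply, AlgHom.toRingHom_eq_coe, RingHom.coe_coe, MvPolynomial.aeval_X,
        MvPolynomial.coe_eval₂Hom, MvPolynomial.eval₂_C, MvPolynomial.eval_X]
      by_cases h : j' = j
      · rw [if_pos h, h, Function.update_self]
        simp
      · rw [if_neg h, Function.update_of_ne h]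
        simp
  · funext y
    unfold pnt
    by_cases hy : y.1 = j
    · obtain ⟨j', ab⟩ := y
      obtain rfl : j' = j := hy
      rw [vj_same, MvPolynomial.eval₂_X]
      simp only [Function.update_self]
    · rw [vj_ne _ hy, MvPolynomial.eval₂_C, Polynomial.coe_evalRingHom, Polynomial.eval_C, Function.update_of_ne hy]

/-- **Relations in several variables.** -/
theorem multi {U : Fin (n + 1) → Set ℂ} {Y : ∀ j, ℂ → Matrix (Fin (r j)) (Fin (r j)) ℂ}
    {A : MvPolynomial (Sg r) (MvPolynomial (Fin (n + 1)) ℂ)}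
    (hA : ∀ x : Fin (n + 1) → ℂ, (∀ j, x j ∈ U j) → vA A x (fun j => Y j (x j)) = 0)
    {g : ∀ j, Matrix (Fin (r j)) (Fin (r j)) ℂ} (hg : ∀ j, g j ∈ GalU (U j) (Y j)) (x : Fin (n + 1) → ℂ)
    (hx : ∀ j, x j ∈ U j) : vA A x (fun j => Y j (x j) * g j) = 0 := by
  classical
  have key : ∀ (s : Finset (Fin (n + 1))) (g : ∀ j, Matrix (Fin (r j)) (Fin (r j)) ℂ), (∀ j, g j ∈ GalU (U j) (Y j)) →
      (∀ j, j ∉ s → g j = 1) → ∀ x : Fin (n + 1) → ℂ, (∀ j, x j ∈ U j) → vA A x (fun j => Y j (x j) * g j) = 0 := by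
    intro s
    induction s using Finset.induction_on with
    | empty =>
      intro g _ h1 x hx
      have : (fun j => Y j (x j) * g j) = fun j => Y j (x j) := by
        funext j
        rw [h1 j (Finset.notMem_empty j), mul_one]
      rw [this]
      exact hA x hx
    | insert j s hj ih =>
      intro g hg h1 x hx
      set g0 : ∀ j, Matrix (Fin (r j)) (Fin (r j)) ℂ := Function.update g j 1 with hg0
      have h2 : ∀ j', g0 j' ∈ GalU (U j') (Y j') := by
        intro j'
        by_cases h : j' = j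
        · subst h
          rw [hg0, Function.update_self]
          exact one_mem _
        · rw [hg0, Function.update_of_ne h]
          exact hg j'
      have h3 : ∀ j', j' ∉ s → g0 j' = 1 := by
        intro j' hj'
        by_cases h : j' = j
        · subst h
          rw [hg0, Function.update_self]
        · rw [hg0, Function.update_of_ne h]
          exact h1 j' (by
            rw [Finset.mem_insert, not_or]
            exact ⟨h, hj'⟩)
      have h4 := ih g0 h2 h3
      have h5 : IsRel (U j) (Y j) (A_j A j x fun j' => Y j' (x j') * g0 j') := by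
        intro z hz
        rw [vl_A_j]
        have h6 := h4 (Function.update x j z) (fun j' => by
          by_cases h : j' = j
          · subst h
            rw [Function.update_self]; exact hz
          · rw [Function.update_of_ne h]; exact hx j')
        convert h6 using 2
        funext j'
        by_cases h : j' = j
        · subst h
          rw [Function.update_self, Function.update_self, hg0, Function.update_self, mul_one]
        · rw [Function.update_of_ne h, Function.update_of_ne h]
      have h7 := hg j _ h5 (x j) (hx j)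
      rw [vl_A_j, Function.update_eq_self] at h7
      convert h7 using 2
      funext j'
      by_cases h : j' = j
      · subst h
        rw [Function.update_self]
      · rw [Function.update_of_ne h, hg0, Function.update_of_ne h]
  exact key Finset.univ g hg (fun j hj => absurd (Finset.mem_univ j) hj) x hx

/-! ### exceptional points -/

/-- tuples of elements of `K` of height at most `T` in the cores of the sets `U j` such that a polynomial of partial
degrees at most `k` with coefficients `∑ ξ i * c i`, `c i` integers of `K` with conjugates at most `T ^ k`, vanishes at the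
matrices `Y j (s j)` and not at all matrices with `Xᵀ J' X = J` -/
def ExcP (J J' : ∀ j, Matrix (Fin (r j)) (Fin (r j)) ℂ) (U : Fin (n + 1) → Set ℂ)
    (Y : ∀ j, ℂ → Matrix (Fin (r j)) (Fin (r j)) ℂ) (K : Type) [Field K] [NumberField K] (io : K →+* ℂ) (k : ℕ)
    (ξ : Fin k → ℂ) (T : ℝ) : Set (Fin (n + 1) → K) :=
  {s | (∀ j, Y120.HtLe K T (s j) ∧ io (s j) ∈ Core (U j) k) ∧ ∃ P : MvPolynomial (Sg r) ℂ, (∀ y, P.degreeOf y ≤ k) ∧
    (∀ m, ∃ c : Fin k → NumberField.RingOfIntegers K, (∀ i (φ : K →+* ℂ), ‖φ (c i : K)‖ ≤ T ^ (k : ℝ)) ∧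
      P.coeff m = ∑ i, ξ i * io (c i : K)) ∧
    MvPolynomial.eval (pnt fun j => Y j (io (s j))) P = 0 ∧
    ∃ X : ∀ j, Matrix (Fin (r j)) (Fin (r j)) ℂ, (∀ j, (X j).transpose * J' j * X j = J j) ∧
      MvPolynomial.eval (pnt X) P ≠ 0}

/-- the sum over the exponents -/
lemma sum_exp {k : ℕ} {P : MvPolynomial (Sg r) ℂ} (hdeg : ∀ y, P.degreeOf y ≤ k)
    (C : (Fin (n + 1) → Sg r → Fin (k + 1)) → ℂ)
    (hC : ∀ l, C l = if ∀ j y, y.1 ≠ j → l j y = 0 then P.coeff (Finsupp.equivFunOnFinite.symm fun y => (l y.1 y : ℕ)) else 0)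
    (w : Sg r → ℂ) : ∑ l, C l * ∏ j, ∏ y, (if y.1 = j then w y else 0) ^ (l j y : ℕ) = MvPolynomial.eval w P := by
  classical
  rw [MvPolynomial.eval_eq']
  symm
  -- the exponents attached to a monomial
  set e : (Sg r →₀ ℕ) → Fin (n + 1) → Sg r → Fin (k + 1) := fun m j y =>
    if y.1 = j then ⟨min (m y) k, Nat.lt_succ_of_le (min_le_right _ _)⟩ else 0 with he
  have hle : ∀ m ∈ P.support, ∀ y, m y ≤ k := by
    intro m hm y
    exact (MvPolynomial.monomial_le_degreeOf y hm).trans (hdeg y)
  have hev : ∀ m ∈ P.support, ∀ y, ((e m y.1 y : Fin (k + 1)) : ℕ) = m y := by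
    intro m hm y
    simp only [he, if_pos]
    exact min_eq_left (hle m hm y)
  have hprod : ∀ l : Fin (n + 1) → Sg r → Fin (k + 1), (∀ j y, y.1 ≠ j → l j y = 0) →
      ∏ j, ∏ y, (if y.1 = j then w y else 0) ^ (l j y : ℕ) = ∏ y, w y ^ (l y.1 y : ℕ) := by
    intro l hl
    rw [Finset.prod_comm]
    refine Finset.prod_congr rfl fun y _ => ?_
    rw [Finset.prod_eq_single y.1]
    · rw [if_pos rfl]
    · intro j _ hj
      rw [hl j y hj.symm]
      simp
    · intro h
      exact absurd (Finset.mem_univ _) h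
  refine Finset.sum_of_injOn e ?_ (fun _ _ => Finset.mem_coe.2 (Finset.mem_univ _)) ?_ ?_
  · intro m hm m' hm' h
    ext y
    rw [← hev m hm y, ← hev m' hm' y, h]
  · intro l _ hl
    rw [hC]
    split_ifs with hgood
    · rw [hprod l hgood]
      have h0 : P.coeff (Finsupp.equivFunOnFinite.symm fun y => (l y.1 y : ℕ)) = 0 := by
        by_contra h0
        apply hl
        refine ⟨_, MvPolynomial.mem_support_iff.2 h0, ?_⟩
        funext j y
        apply Fin.ext
        simp only [he]
        split_ifs with hj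
        · subst hj
          simp only [Finsupp.equivFunOnFinite_symm_apply_apply]
          exact min_eq_left (Nat.lt_succ_iff.1 (l y.1 y).2)
        · rw [hgood j y hj]
      rw [h0, zero_mul]
    · rw [zero_mul]
  · intro m hm
    have hgood : ∀ j y, y.1 ≠ j → e m j y = 0 := by
      intro j y hj
      simp only [he, if_neg hj]
    rw [hC, if_pos hgood, hprod _ hgood]
    have h1 : (Finsupp.equivFunOnFinite.symm fun y => ((e m y.1 y : Fin (k + 1)) : ℕ)) = m := by
      ext y
      rw [Finsupp.equivFunOnFinite_symm_apply_apply]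
      exact hev m hm y
    rw [h1]
    congr 1
    refine Finset.prod_congr rfl fun y _ => ?_
    rw [hev m hm y]

end Pool.Agent.Y119.PL
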